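import Mathlib

namespace Pool.Agent.Results.MP_74392e_co.SixThree

open SimpleGraph

universe u

/-- Every vertex has degree `k` and every edge lies in exactly `t` triangles. -/
def KTRegular {V : Type u} (G : SimpleGraph V) (k t : ℕ) : Prop :=
  (∀ v, (G.neighborSet v).encard = k) ∧
    ∀ u v, G.Adj u v → (G.commonNeighbors u v).encard = t

theorem kt_of {n : ℕ} (G : SimpleGraph (Fin n)) [DecidableRel G.Adj] (k t : ℕ)
    (h1 : ∀ v, (Finset.univ.filter fun x => G.Adj v x).card = k)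
    (h2 : ∀ u v, G.Adj u v → (Finset.univ.filter fun x => G.Adj u x ∧ G.Adj v x).card = t) :
    KTRegular G k t := by
  refine ⟨fun v => ?_, fun u v h => ?_⟩
  · rw [← h1 v, ← Set.encard_coe_eq_coe_finsetCard]
    congr 1
    ext x
    simp
  · rw [← h2 u v h, ← Set.encard_coe_eq_coe_finsetCard]
    congr 1
    ext x
    simp [mem_commonNeighbors]

theorem conn_of {n : ℕ} (G : SimpleGraph (Fin (n + 1)))
    (key : ∀ v, v = 0 ∨ G.Adj 0 v ∨ ∃ w, G.Adj 0 w ∧ G.Adj w v) : G.Connected := by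
  have h : ∀ v, G.Reachable 0 v := by
    intro v
    rcases key v with rfl | h | ⟨w, h1, h2⟩
    · rfl
    · exact h.reachable
    · exact h1.reachable.trans h2.reachable
  exact ⟨fun u v => (h u).symm.trans (h v)⟩

/-- `K_{3,3,3}` -/
def G1 : SimpleGraph (Fin 9) where
  Adj a b := a.val / 3 ≠ b.val / 3
  symm := ⟨fun _ _ h => h.symm⟩
  loopless := ⟨fun _ h => h rfl⟩

instance : DecidableRel G1.Adj := fun a b => inferInstanceAs (Decidable (a.val / 3 ≠ b.val / 3))

/-- complement of the Petersen graph -/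
def pet (a b : Fin 10) : Bool :=
  (a.val < 5 && b.val == (a.val + 1) % 5) || (a.val < 5 && b.val == a.val + 5) ||
  (5 ≤ a.val && b.val == (a.val + 2) % 5 + 5)

def G2 : SimpleGraph (Fin 10) where
  Adj a b := a ≠ b ∧ pet a b = false ∧ pet b a = false
  symm := ⟨fun _ _ h => ⟨h.1.symm, h.2.2, h.2.1⟩⟩
  loopless := ⟨fun _ h => h.1 rfl⟩

instance : DecidableRel G2.Adj :=
  fun a b => inferInstanceAs (Decidable (a ≠ b ∧ pet a b = false ∧ pet b a = false))

section
variable {V : Type u} {G : SimpleGraph V}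

theorem fin_nb (h : KTRegular G 6 3) (v : V) : (G.neighborSet v).Finite :=
  Set.finite_of_encard_eq_coe (h.1 v)

theorem nb_card (h : KTRegular G 6 3) (v : V) : (G.neighborSet v).ncard = 6 := by
  rw [Set.ncard_def, h.1 v]; rfl

theorem cn_card (h : KTRegular G 6 3) {u v : V} (huv : G.Adj u v) :
    (G.neighborSet u ∩ G.neighborSet v).ncard = 3 := by
  have := h.2 u v huv
  rw [commonNeighbors_eq] at this
  rw [Set.ncard_def, this]; rfl

theorem mu (h : KTRegular G 6 3) {x y z : V} (h1 : G.Adj y x) (h2 : G.Adj y z) (hne : x ≠ z)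
    (hn : ¬ G.Adj x z) : 3 ≤ (G.neighborSet z ∩ G.neighborSet x).ncard := by
  have fy := fin_nb h y
  have e1 := Set.ncard_union_add_ncard_inter (G.neighborSet y ∩ G.neighborSet x)
    (G.neighborSet y ∩ G.neighborSet z) (fy.inter_of_left _) (fy.inter_of_left _)
  rw [cn_card h h1, cn_card h h2] at e1
  have s1 : G.neighborSet y ∩ G.neighborSet x ∪ G.neighborSet y ∩ G.neighborSet z ⊆
      G.neighborSet y \ {x, z} := by
    rintro a (⟨ha, hb⟩ | ⟨ha, hb⟩) <;> refine ⟨ha, ?_⟩ <;> rintro (rfl | rfl)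
    · exact G.irrefl hb
    · exact hn hb
    · exact hn (G.adj_symm hb)
    · exact G.irrefl hb
  have e2 := Set.ncard_le_ncard s1 fy.sdiff
  rw [Set.ncard_sdiff (by rintro a (rfl | rfl) <;> assumption), nb_card h,
    Set.ncard_pair hne] at e2
  have s2 : insert y (G.neighborSet y ∩ G.neighborSet x ∩ (G.neighborSet y ∩ G.neighborSet z)) ⊆
      G.neighborSet z ∩ G.neighborSet x := by
    rintro a (rfl | ⟨⟨-, ha⟩, -, hb⟩)
    · exact ⟨h2.symm, h1.symm⟩
    · exact ⟨hb, ha⟩
  have e3 := Set.ncard_le_ncard s2 ((fin_nb h z).inter_of_left _)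
  rw [Set.ncard_insert_of_notMem (fun hy => G.irrefl hy.1.1)
    ((fy.inter_of_left _).inter_of_left _)] at e3
  omega

theorem diam (h : KTRegular G 6 3) (x : V) {z w : V}
    (hz : z = x ∨ G.Adj x z ∨ ∃ y, G.Adj x y ∧ G.Adj y z) (hw : G.Adj z w) :
    w = x ∨ G.Adj x w ∨ ∃ y, G.Adj x y ∧ G.Adj y w := by
  by_contra hno
  push Not at hno
  obtain ⟨n1, n2, n3⟩ := hno
  have hxz : ¬ G.Adj x z := fun h => n3 z h hw
  rcases hz with rfl | hz | ⟨y, h1, h2⟩
  · exact n2 hw
  · exact hxz hz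
  have hne : x ≠ z := by rintro rfl; exact n2 hw
  have e1 := mu h h1.symm h2 hne hxz
  have e2 := cn_card h hw
  have fz := fin_nb h z
  have s1 : G.neighborSet z ∩ G.neighborSet x ∪ G.neighborSet z ∩ G.neighborSet w ⊆
      G.neighborSet z \ {w} := by
    rintro a (⟨ha, hb⟩ | ⟨ha, hb⟩) <;> refine ⟨ha, ?_⟩ <;> rintro rfl
    · exact n2 hb
    · exact G.irrefl hb
  have e3 := Set.ncard_le_ncard s1 fz.sdiff
  rw [Set.ncard_sdiff_singleton_of_mem (show w ∈ G.neighborSet z from hw), nb_card h, Set.ncard_union_eq ?_ (fz.inter_of_left _)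
    (fz.inter_of_left _)] at e3
  · omega
  · exact Set.disjoint_left.2 fun a ha hb => n3 a ha.2 (G.adj_symm hb.2)

theorem finite (hc : G.Connected) (h : KTRegular G 6 3) : Finite V := by
  obtain ⟨x⟩ := hc.nonempty
  have key : ∀ w, w = x ∨ G.Adj x w ∨ ∃ y, G.Adj x y ∧ G.Adj y w := by
    intro w
    have := (G.reachable_iff_reflTransGen x w).1 (hc x w)
    induction this with
    | refl => exact Or.inl rfl
    | tail _ hs ih => exact diam h x ih hs
  rw [← Set.finite_univ_iff]
  refine (((Set.finite_singleton x).union (fin_nb h x)).union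
    ((fin_nb h x).biUnion fun y _ => fin_nb h y)).subset fun w _ => ?_
  rcases key w with h | h | ⟨y, h1, h2⟩
  · exact Or.inl (Or.inl h)
  · exact Or.inl (Or.inr h)
  · exact Or.inr (Set.mem_biUnion h1 h2)

end

theorem result : ∃ k t : ℕ, 1 ≤ k ∧
    (∃ (V W : Type) (G : SimpleGraph V) (H : SimpleGraph W), G.Connected ∧ H.Connected ∧
      KTRegular G k t ∧ KTRegular H k t ∧ IsEmpty (G ≃g H)) ∧
    ∀ (V : Type u) (G : SimpleGraph V), G.Connected → KTRegular G k t → Finite V := by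
  refine ⟨6, 3, by norm_num, ⟨_, _, G1, G2, conn_of _ (by decide +kernel),
    conn_of _ (by decide +kernel), kt_of _ _ _ (by decide +kernel) (by decide +kernel),
    kt_of _ _ _ (by decide +kernel) (by decide +kernel), ⟨fun f => ?_⟩⟩,
    fun V G h1 h2 => finite h1 h2⟩
  have := Fintype.card_congr f.toEquiv
  simp at this

end Pool.Agent.Results.MP_74392e_co.SixThree
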